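import Pool.Agent.E8helper36.CF.Stm

/-!
# CF36, piece FL: the two kinds of flips exist
-/

set_option autoImplicit false

namespace Pool.Agent.E8helper73.CF

open Pool.Agent.E8helper36.CF

/-- **FL1** -/
theorem t_FL1 : S_FL1 := by
  intro n M a b c d hab hbc hcd h1 h2 hcl
  have h1' : M.m b = a := by rw [← h1, M.inv]
  have h2' : M.m d = c := by rw [← h2, M.inv]
  have hac := hab.trans hbc
  have hbd := hbc.trans hcd
  have had := hab.trans hbd
  let f : Fin (2 * n) → Fin (2 * n) := fun i =>
    if i = b then c else if i = c then b else if i = a then d else if i = d then a else M.m i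
  have fb : f b = c := by simp [f]
  have fc : f c = b := by simp [f, hbc.ne']
  have fa : f a = d := by simp [f, hab.ne, hac.ne]
  have fd : f d = a := by simp [f, hbd.ne', hcd.ne', had.ne']
  have fo : ∀ i, i ≠ a → i ≠ b → i ≠ c → i ≠ d → f i = M.m i := by
    intro i ia ib ic id
    simp [f, ia, ib, ic, id]
  have hout : ∀ i, i ≠ a → i ≠ b → i ≠ c → i ≠ d →
      M.m i ≠ a ∧ M.m i ≠ b ∧ M.m i ≠ c ∧ M.m i ≠ d := by
    intro i ia ib ic id
    refine ⟨?_, ?_, ?_, ?_⟩
    · intro h
      exact ib (by rw [← M.inv i, h, h1])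
    · intro h
      exact ia (by rw [← M.inv i, h, h1'])
    · intro h
      exact id (by rw [← M.inv i, h, h2])
    · intro h
      exact ic (by rw [← M.inv i, h, h2'])
  refine ⟨⟨f, ?_, ?_, ?_⟩, ?_⟩
  · intro i
    by_cases ia : i = a
    · rw [ia, fa, fd]
    by_cases ib : i = b
    · rw [ib, fb, fc]
    by_cases ic : i = c
    · rw [ic, fc, fb]
    by_cases id : i = d
    · rw [id, fd, fa]
    obtain ⟨ja, jb, jc, jd⟩ := hout i ia ib ic id
    rw [fo i ia ib ic id, fo _ ja jb jc jd, M.inv]
  · intro i
    by_cases ia : i = a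
    · rw [ia, fa]; exact had.ne'
    by_cases ib : i = b
    · rw [ib, fb]; exact hbc.ne'
    by_cases ic : i = c
    · rw [ic, fc]; exact hbc.ne
    by_cases id : i = d
    · rw [id, fd]; exact had.ne
    rw [fo i ia ib ic id]
    exact M.ne i
  · intro x y hxy hy hlt
    by_cases xb : x = b
    · rw [xb] at hxy hy hlt
      rw [fb] at hy hlt
      have hyy := hcl y hxy hy
      rw [fo y (hab.trans hxy).ne' hxy.ne' hy.ne (hy.trans hcd).ne] at hlt
      exact absurd hlt (not_lt.2 hyy.2.le)
    by_cases xc : x = c
    · rw [xc] at hxy hy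
      rw [fc] at hy
      exact absurd (hxy.trans hy) (not_lt.2 hbc.le)
    by_cases xd : x = d
    · rw [xd] at hxy hy
      rw [fd] at hy
      exact absurd (hxy.trans hy) (not_lt.2 had.le)
    by_cases xa : x = a
    · rw [xa] at hxy hy hlt
      rw [fa] at hy hlt
      by_cases yb : y = b
      · rw [yb, fb] at hlt
        exact absurd hlt (not_lt.2 hcd.le)
      by_cases yc : y = c
      · rw [yc, fc] at hlt
        exact absurd hlt (not_lt.2 hbd.le)
      rw [fo y hxy.ne' yb yc hy.ne] at hlt
      rcases lt_trichotomy y b with h | h | h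
      · have := M.nc a y hxy (by rw [h1]; exact h)
        rw [h1] at this
        exact this (hbd.trans hlt)
      · exact yb h
      · rcases lt_trichotomy y c with h' | h' | h'
        · exact absurd (hcl y h h').2 (not_lt.2 (hcd.trans hlt).le)
        · exact yc h'
        · have := M.nc c y h' (by rw [h2]; exact hy)
          rw [h2] at this
          exact this hlt
    obtain ⟨ja, jb, jc, jd⟩ := hout x xa xb xc xd
    rw [fo x xa xb xc xd] at hy hlt
    have hnot : ¬ (b < M.m x ∧ M.m x < c ∧ x < b) := by
      rintro ⟨k1, k2, k3⟩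
      have := (hcl _ k1 k2).1
      rw [M.inv] at this
      exact absurd this (not_lt.2 k3.le)
    by_cases yb : y = b
    · rw [yb] at hxy hy hlt
      rw [fb] at hlt
      exact hnot ⟨hy, hlt, hxy⟩
    by_cases yc : y = c
    · rw [yc] at hxy hy hlt
      rw [fc] at hlt
      exact absurd (hy.trans hlt) (not_lt.2 hbc.le)
    by_cases ya : y = a
    · rw [ya] at hxy hy hlt
      rw [fa] at hlt
      have k1 := M.nc x a hxy hy
      rw [h1, not_lt] at k1
      have k2 : b < M.m x := lt_of_le_of_ne k1 (Ne.symm jb)
      rcases lt_trichotomy (M.m x) c with h | h | h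
      · exact hnot ⟨k2, h, hxy.trans hab⟩
      · exact jc h
      · have := M.nc x c (hxy.trans hac) h
        rw [h2] at this
        exact this hlt
    by_cases yd : y = d
    · rw [yd] at hxy hy hlt
      rw [fd] at hlt
      exact absurd (hy.trans hlt) (not_lt.2 had.le)
    rw [fo y ya yb yc yd] at hlt
    exact M.nc x y hxy hy hlt
  · exact
      { ab := h1
        cd := h2
        bc := fb
        ad := fa
        rest := fun i ia ib ic id => fo i ia ib ic id }

/-- **FL2** -/
theorem t_FL2 : S_FL2 := by
  intro n M a b c d hab hbc hcd h1 h2 hcl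
  have h1' : M.m c = b := by rw [← h1, M.inv]
  have h2' : M.m d = a := by rw [← h2, M.inv]
  have hac := hab.trans hbc
  have hbd := hbc.trans hcd
  have had := hab.trans hbd
  let f : Fin (2 * n) → Fin (2 * n) := fun i =>
    if i = a then b else if i = b then a else if i = c then d else if i = d then c else M.m i
  have fa : f a = b := by simp [f]
  have fb : f b = a := by simp [f, hab.ne']
  have fc : f c = d := by simp [f, hac.ne', hbc.ne']
  have fd : f d = c := by simp [f, hbd.ne', hcd.ne', had.ne']
  have fo : ∀ i, i ≠ a → i ≠ b → i ≠ c → i ≠ d → f i = M.m i := by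
    intro i ia ib ic id
    simp [f, ia, ib, ic, id]
  have hout : ∀ i, i ≠ a → i ≠ b → i ≠ c → i ≠ d →
      M.m i ≠ a ∧ M.m i ≠ b ∧ M.m i ≠ c ∧ M.m i ≠ d := by
    intro i ia ib ic id
    refine ⟨?_, ?_, ?_, ?_⟩
    · intro h
      exact id (by rw [← M.inv i, h, h2])
    · intro h
      exact ic (by rw [← M.inv i, h, h1])
    · intro h
      exact ib (by rw [← M.inv i, h, h1'])
    · intro h
      exact ia (by rw [← M.inv i, h, h2'])
  refine ⟨⟨f, ?_, ?_, ?_⟩, ?_⟩
  · intro i
    by_cases ia : i = a
    · rw [ia, fa, fb]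
    by_cases ib : i = b
    · rw [ib, fb, fa]
    by_cases ic : i = c
    · rw [ic, fc, fd]
    by_cases id : i = d
    · rw [id, fd, fc]
    obtain ⟨ja, jb, jc, jd⟩ := hout i ia ib ic id
    rw [fo i ia ib ic id, fo _ ja jb jc jd, M.inv]
  · intro i
    by_cases ia : i = a
    · rw [ia, fa]; exact hab.ne'
    by_cases ib : i = b
    · rw [ib, fb]; exact hab.ne
    by_cases ic : i = c
    · rw [ic, fc]; exact hcd.ne'
    by_cases id : i = d
    · rw [id, fd]; exact hcd.ne
    rw [fo i ia ib ic id]
    exact M.ne i
  · intro x y hxy hy hlt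
    by_cases xa : x = a
    · rw [xa] at hxy hy hlt
      rw [fa] at hy hlt
      have hyy := hcl y hxy hy
      rw [fo y hxy.ne' hy.ne (hy.trans hbc).ne (hy.trans hbd).ne] at hlt
      exact absurd hlt (not_lt.2 hyy.2.le)
    by_cases xb : x = b
    · rw [xb] at hxy hy
      rw [fb] at hy
      exact absurd (hxy.trans hy) (not_lt.2 hab.le)
    by_cases xd : x = d
    · rw [xd] at hxy hy
      rw [fd] at hy
      exact absurd (hxy.trans hy) (not_lt.2 hcd.le)
    by_cases xc : x = c
    · rw [xc] at hxy hy hlt
      rw [fc] at hy hlt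
      rw [fo y (hac.trans hxy).ne' (hbc.trans hxy).ne' hxy.ne' hy.ne] at hlt
      have := M.nc a y (hac.trans hxy) (by rw [h2]; exact hy)
      rw [h2] at this
      exact this hlt
    obtain ⟨ja, jb, jc, jd⟩ := hout x xa xb xc xd
    rw [fo x xa xb xc xd] at hy hlt
    by_cases ya : y = a
    · rw [ya] at hxy hy hlt
      rw [fa] at hlt
      have := (hcl _ hy hlt).1
      rw [M.inv] at this
      exact absurd this (not_lt.2 hxy.le)
    by_cases yb : y = b
    · rw [yb] at hxy hy hlt
      rw [fb] at hlt
      exact absurd (hy.trans hlt) (not_lt.2 hab.le)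
    by_cases yc : y = c
    · rw [yc] at hxy hy hlt
      rw [fc] at hlt
      rcases lt_trichotomy x a with h | h | h
      · have := M.nc x a h (hac.trans hy)
        rw [h2] at this
        exact this hlt
      · exact xa h
      · rcases lt_trichotomy x b with h' | h' | h'
        · exact absurd (hcl x h h').2 (not_lt.2 (hbc.trans hy).le)
        · exact xb h'
        · have := M.nc b x h' (by rw [h1]; exact hxy)
          rw [h1] at this
          exact this hy
    by_cases yd : y = d
    · rw [yd] at hxy hy hlt
      rw [fd] at hlt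
      exact absurd (hy.trans hlt) (not_lt.2 hcd.le)
    rw [fo y ya yb yc yd] at hlt
    exact M.nc x y hxy hy hlt
  · exact
      { ab := fa
        cd := fc
        bc := h1
        ad := h2
        rest := fun i ia ib ic id => (fo i ia ib ic id).symm }

end Pool.Agent.E8helper73.CF
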